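import Pool.Agent.Lib.MP_c5d73d_lc.F.IfaceW

/-!
# CLF: closing off under extensions into dense sets and common lower bounds
-/

universe u v w

open Cardinal Filter

open scoped symmDiff

namespace Pool.Agent.Lib.MP_c5d73d_lc.F.H75

open Pool.Agent.Lib.MP_100a6c_lc Pool.Agent.Lib.MP_c5d73d_lc.F
open BName

/-! ## The cardinality of `Tm Λ` -/

/-- Arities of the constructors of `Tm Λ`. -/
def ar (Λ : Type u) : Option (Option Λ) → Type u
  | none => PEmpty
  | some none => ULift Bool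
  | some (some _) => PUnit

instance (Λ : Type u) (a : Option (Option Λ)) : Finite (ar Λ a) := by
  rcases a with _ | _ | l
  · exact (inferInstance : Finite PEmpty.{u+1})
  · exact (inferInstance : Finite (ULift Bool))
  · exact (inferInstance : Finite PUnit.{u+1})

/-- Coding of terms as trees. -/
def toW {Λ : Type u} : Tm Λ → WType (ar Λ)
  | Tm.root => ⟨none, PEmpty.elim⟩
  | Tm.ext l t => ⟨some (some l), fun _ => toW t⟩
  | Tm.lb s t => ⟨some none, fun b : ULift Bool => if b.down then toW s else toW t⟩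

theorem toW_injective {Λ : Type u} : Function.Injective (toW (Λ := Λ)) := by
  intro s
  induction s with
  | root =>
    intro t h
    cases t with
    | root => rfl
    | ext l t => exact absurd (WType.mk.inj h).1 (by simp)
    | lb s t => exact absurd (WType.mk.inj h).1 (by simp)
  | ext l s ih =>
    intro t h
    cases t with
    | root => exact absurd (WType.mk.inj h).1 (by simp)
    | ext l' t =>
      obtain ⟨h1, h2⟩ := WType.mk.inj h
      have h1' : l = l' := by simpa using h1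
      subst h1'
      have h3 := congrFun (eq_of_heq h2) PUnit.unit
      rw [ih h3]
    | lb s t => exact absurd (WType.mk.inj h).1 (by simp)
  | lb s s' ih ih' =>
    intro t h
    cases t with
    | root => exact absurd (WType.mk.inj h).1 (by simp)
    | ext l t => exact absurd (WType.mk.inj h).1 (by simp)
    | lb t t' =>
      obtain ⟨-, h2⟩ := WType.mk.inj h
      have h2 := eq_of_heq h2
      have h3 := congrFun h2 (⟨true⟩ : ULift Bool)
      have h4 := congrFun h2 (⟨false⟩ : ULift Bool)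
      simp only [if_true] at h3
      simp only [Bool.false_eq_true, if_false] at h4
      rw [ih h3, ih' h4]

theorem mk_Tm_lt {Λ : Type u} {κ : Cardinal.{u}} (hκ : ℵ₀ < κ) (h : #Λ < κ) : #(Tm Λ) < κ := by
  refine (mk_le_of_injective toW_injective).trans_lt ?_
  refine (WType.cardinalMk_le_max_aleph0_of_finite (β := ar Λ)).trans_lt ?_
  refine max_lt ?_ hκ
  rw [mk_option, mk_option]
  exact add_lt_of_lt hκ.le (add_lt_of_lt hκ.le h (one_lt_aleph0.trans hκ)) (one_lt_aleph0.trans hκ)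

/-! ## The family -/

variable {B : Type u} [CompleteBooleanAlgebra B]

/-- Change `τ` to a witness of `φ` on `Δ`. -/
theorem exists_extend {Γ Δ : B} {P τ : BName B} {φ : BName B → B} (hφ : Ext φ) (hΔ : Δ ≤ Γ)
    (hτ : Γ ≤ bmem τ P) (h : Δ ≤ ⨆ q, bmem q P ⊓ φ q) :
    ∃ σ, Γ ≤ bmem σ P ∧ Δ ≤ φ σ := by
  obtain ⟨σ₀, hσ₀⟩ := exists_wit ((ext_mem_left P).inf hφ) h
  obtain ⟨σ, hσ⟩ := mix (ι := ULift Bool) (fun t => if t.down then Δ else Δᶜ)
    (fun t => if t.down then σ₀ else τ) (by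
      rintro ⟨_ | _⟩ ⟨_ | _⟩ <;> simp [beq_refl])
  have h1 : Δ ≤ beq σ σ₀ := by simpa using hσ ⟨true⟩
  have h2 : Δᶜ ≤ beq σ τ := by simpa using hσ ⟨false⟩
  refine ⟨σ, ?_, hφ.of_le' h1 (hσ₀.trans inf_le_right)⟩
  have e : Γ = (Γ ⊓ Δ) ⊔ (Γ ⊓ Δᶜ) := by rw [← inf_sup_left, sup_compl_eq_top, inf_top_eq]
  rw [e]
  refine sup_le ?_ ?_
  · exact (ext_mem_left P).of_le' (x := σ₀) (inf_le_right.trans h1)
      (inf_le_right.trans (hσ₀.trans inf_le_left))
  · exact (ext_mem_left P).of_le' (x := τ) (inf_le_right.trans h2) (inf_le_left.trans hτ)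

theorem clf : ClfStatement.{u} := by
  classical
  intro B _ Γ P r D Λ d hP hD
  refine ⟨fun κ hκ h => mk_Tm_lt hκ h, ?_⟩
  have hP0 : Γ ≤ ⨆ p, bmem p P := hP.trans (inf_le_left.trans inf_le_left)
  obtain ⟨τ₀, hτ₀⟩ := exists_wit (ext_mem_left P) hP0
  -- extension into dense sets
  have hext : ∀ (l : Λ) (t : {τ : BName B // Γ ≤ bmem τ P}), ∃ σ : {τ : BName B // Γ ≤ bmem τ P},
      Γ ⊓ bmem (d l) D ≤ bmem σ.1 (d l) ⊓ (VB B).rel r σ.1 t.1 := by
    rintro l ⟨t, ht⟩
    have h1 : Γ ⊓ bmem (d l) D ≤ isDense (VB B) P r (d l) :=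
      iInf_himp_apply hD (d l) inf_le_left inf_le_right
    have h2 : Γ ⊓ bmem (d l) D ≤ (VB B).sub (d l) P := h1.trans inf_le_left
    have h3 : Γ ⊓ bmem (d l) D ≤ ⨆ q, (VB B).mem q (d l) ⊓ (VB B).rel r q t :=
      iInf_himp_apply (h1.trans inf_le_right) t le_rfl (inf_le_left.trans ht)
    have h4 : Γ ⊓ bmem (d l) D ≤ ⨆ q, bmem q P ⊓ (bmem q (d l) ⊓ (VB B).rel r q t) := by
      refine (le_inf le_rfl h3).trans ?_
      rw [inf_iSup_eq]
      refine iSup_mono fun q => le_inf ?_ inf_le_right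
      exact sub_apply h2 q inf_le_left (inf_le_right.trans inf_le_left)
    obtain ⟨σ, hσ1, hσ2⟩ := exists_extend ((ext_mem_left (d l)).inf (ext_rel_snd r t))
      inf_le_left ht h4
    exact ⟨⟨σ, hσ1⟩, hσ2⟩
  -- common lower bounds
  have hlb : ∀ (s t : {τ : BName B // Γ ≤ bmem τ P}), ∃ σ : {τ : BName B // Γ ≤ bmem τ P},
      Γ ⊓ comp (VB B) P r s.1 t.1 ≤ (VB B).rel r σ.1 s.1 ⊓ (VB B).rel r σ.1 t.1 := by
    rintro ⟨s, hs⟩ ⟨t, ht⟩
    have h4 : Γ ⊓ comp (VB B) P r s t ≤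
        ⨆ q, bmem q P ⊓ ((VB B).rel r q s ⊓ (VB B).rel r q t) := by
      refine inf_le_right.trans ?_
      refine iSup_mono fun q => ?_
      rw [inf_assoc]
      exact le_rfl
    obtain ⟨σ, hσ1, hσ2⟩ := exists_extend ((ext_rel_snd r s).inf (ext_rel_snd r t))
      inf_le_left hs h4
    exact ⟨⟨σ, hσ1⟩, hσ2⟩
  choose fe hfe using hext
  choose fl hfl using hlb
  let p : Tm Λ → {τ : BName B // Γ ≤ bmem τ P} := fun t =>
    Tm.rec ⟨τ₀, hτ₀⟩ (fun l _ s => fe l s) (fun _ _ s s' => fl s s') t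
  refine ⟨fun t => (p t).1, fun t => (p t).2, fun l t => hfe l (p t), fun s t => hfl (p s) (p t)⟩

end Pool.Agent.Lib.MP_c5d73d_lc.F.H75
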