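import Pool.Agent.Lib.MP_c5d73d_lc.F.IfaceW

/-!
# TCCCV: from the countable chain condition in `V^B` to the typed one
-/

universe u v w

open Cardinal Filter

open scoped symmDiff

namespace Pool.Agent.Lib.MP_c5d73d_lc.F.H75

open Pool.Agent.Lib.MP_100a6c_lc Pool.Agent.Lib.MP_c5d73d_lc.F
open BName
open H36 (nn om)

variable {B : Type u} [CompleteBooleanAlgebra B]

/-- Disjoint families in a ccc algebra are countable. -/
theorem countable_of_disjoint (hB : CCov ℵ₀ B) {T : Type u} (f : T → B)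
    (h : ∀ t t', t ≠ t' → f t ⊓ f t' = ⊥) : {t | f t ≠ ⊥}.Countable := by
  obtain ⟨s, hs, hsc, hsup⟩ := hB (f '' {t | f t ≠ ⊥})
  have hsc' : s.Countable := le_aleph0_iff_set_countable.1 hsc
  have hinj : Set.InjOn f {t | f t ≠ ⊥} := by
    intro t ht t' _ he
    by_contra hne
    have := h t t' hne
    rw [← he, inf_idem] at this
    exact ht this
  have hsub : f '' {t | f t ≠ ⊥} ⊆ s := by
    rintro _ ⟨t, ht, rfl⟩
    by_contra hno
    have h1 : f t ≤ sSup s := by
      rw [hsup]; exact le_sSup ⟨t, ht, rfl⟩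
    have h2 : f t ⊓ sSup s = ⊥ := by
      rw [inf_sSup_eq]
      refine le_bot_iff.1 (iSup₂_le fun x hx => ?_)
      obtain ⟨t', ht', rfl⟩ := hs hx
      by_cases he : t = t'
      · subst he; exact absurd hx hno
      · exact (h t t' he).le
    rw [inf_eq_left.2 h1] at h2
    exact ht h2
  exact Set.countable_of_injective_of_countable_image hinj (hsc'.mono hsub)

theorem tcccv (hR : RealsStatement.{u}) : TcccvStatement.{u} := by
  classical
  intro B _ hB Γ P r Q p hpP hrefl hccc hclose T b q hb hanti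
  obtain ⟨-, -, -, -, -, hom, -⟩ := hR B
  -- the values off `Γ`
  have hoff : ∀ t t', t ≠ t' → (b t ⊓ Γᶜ) ⊓ (b t' ⊓ Γᶜ) = ⊥ := by
    intro t t' hne
    refine le_bot_iff.1 ?_
    rw [← hanti t t' hne]
    refine le_inf (le_inf (inf_le_left.trans inf_le_left) (inf_le_right.trans inf_le_left)) ?_
    unfold tcomp
    refine le_iSup_of_le (q t) (le_inf ?_ ?_)
    · exact (inf_le_left.trans inf_le_right).trans le_sup_right
    · exact (inf_le_left.trans inf_le_right).trans le_sup_right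
  -- the values at `Γ`
  have hin : ∀ t t', t ≠ t' → b t ⊓ b t' ⊓ (Γ ⊓ comp (VB B) P r (p (q t)) (p (q t'))) = ⊥ := by
    intro t t' hne
    refine le_bot_iff.1 ?_
    rw [← hanti t t' hne]
    refine inf_le_inf_left _ ((hclose (q t) (q t')).trans ?_)
    unfold tcomp
    refine iSup_mono fun s => inf_le_inf le_sup_left le_sup_left
  -- the antichain
  let A : BName B := mk T (fun t => p (q t)) fun t => b t ⊓ Γ
  have hmemA : ∀ x, bmem x A = ⨆ t, (b t ⊓ Γ) ⊓ beq x (p (q t)) := fun x => rfl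
  have hA1 : Γ ≤ (VB B).sub A P := by
    rw [le_sub_iff]
    intro t
    exact inf_le_left.trans (hpP (q t))
  have hcomp_ext1 : ∀ y, Ext (fun x : BName B => comp (VB B) P r x y) := fun y =>
    Ext.iSup fun s => ((Ext.const _).inf (ext_rel_trd r s)).inf (Ext.const _)
  have hcomp_ext2 : ∀ x, Ext (fun y : BName B => comp (VB B) P r x y) := fun x =>
    Ext.iSup fun s => ((Ext.const _)).inf (ext_rel_trd r s)
  have hA2 : Γ ≤ ⨅ x, ⨅ y, (VB B).mem x A ⊓ (VB B).mem y A ⊓ ((VB B).eq x y)ᶜ ⇨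
      (comp (VB B) P r x y)ᶜ := by
    refine le_iInf fun x => le_iInf fun y => ?_
    rw [le_himp_iff, le_compl_iff_disjoint_right, disjoint_iff]
    refine le_bot_iff.1 ?_
    rw [VB_mem, VB_mem, hmemA, hmemA, iSup_inf_iSup, iSup_inf_eq, inf_iSup_eq, iSup_inf_eq]
    refine iSup_le fun ⟨t, t'⟩ => ?_
    generalize hZ : Γ ⊓ (b t ⊓ Γ ⊓ beq x (p (q t)) ⊓ (b t' ⊓ Γ ⊓ beq y (p (q t'))) ⊓
      ((VB B).eq x y)ᶜ) ⊓ comp (VB B) P r x y = Z
    have z1 : Z ≤ Γ := by rw [← hZ]; exact inf_le_left.trans inf_le_left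
    have z2 : Z ≤ b t := by
      rw [← hZ]
      exact inf_le_left.trans (inf_le_right.trans (inf_le_left.trans (inf_le_left.trans
        (inf_le_left.trans inf_le_left))))
    have z3 : Z ≤ beq x (p (q t)) := by
      rw [← hZ]
      exact inf_le_left.trans (inf_le_right.trans (inf_le_left.trans (inf_le_left.trans
        inf_le_right)))
    have z4 : Z ≤ b t' := by
      rw [← hZ]
      exact inf_le_left.trans (inf_le_right.trans (inf_le_left.trans (inf_le_right.trans
        (inf_le_left.trans inf_le_left))))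
    have z5 : Z ≤ beq y (p (q t')) := by
      rw [← hZ]
      exact inf_le_left.trans (inf_le_right.trans (inf_le_left.trans (inf_le_right.trans
        inf_le_right)))
    have z6 : Z ≤ (beq x y)ᶜ := by
      rw [← hZ]
      exact inf_le_left.trans (inf_le_right.trans inf_le_right)
    have z7 : Z ≤ comp (VB B) P r x y := by rw [← hZ]; exact inf_le_right
    by_cases htt : t = t'
    · subst htt
      have h1 : Z ≤ beq x y := (ext_eq_right x).of_le' (x := p (q t)) z5 z3
      exact (le_inf h1 z6).trans (by rw [inf_compl_self])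
    · have h1 : Z ≤ comp (VB B) P r (p (q t)) (p (q t')) :=
        (hcomp_ext2 _).of_le (x := y) z5 ((hcomp_ext1 y).of_le (x := x) z3 z7)
      exact (le_inf (le_inf z2 z4) (le_inf z1 h1)).trans (hin t t' htt).le
  have hA3 : Γ ≤ (VB B).leCard A (check om) := by
    have h1 : Γ ≤ ⨅ w, isOm (VB B) w ⇨ (VB B).leCard A w := by
      have h2 : Γ ≤ (VB B).sub A P ⊓ (⨅ x, ⨅ y, (VB B).mem x A ⊓ (VB B).mem y A ⊓
          ((VB B).eq x y)ᶜ ⇨ (comp (VB B) P r x y)ᶜ) := le_inf hA1 hA2
      exact iInf_himp_apply hccc A le_rfl h2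
    refine iInf_himp_apply h1 (check om) le_rfl ?_
    rw [hom, beq_refl]
    exact le_top
  have hkap : (om : ZFSet.{u}) = (ℵ₀ : Cardinal.{u}).ord.toZFSet := by
    rw [ord_aleph0]; rfl
  rw [hkap] at hA3
  obtain ⟨τ, hτ⟩ := exists_enum_type (K := ULift.{u} ℕ) (by simp) hA3
  -- the pieces
  have hcn : ∀ n : ULift.{u} ℕ, ∀ t t', t ≠ t' →
      (b t ⊓ Γ ⊓ beq (p (q t)) (τ n)) ⊓ (b t' ⊓ Γ ⊓ beq (p (q t')) (τ n)) = ⊥ := by
    intro n t t' hne
    refine le_bot_iff.1 ?_
    generalize hZ : (b t ⊓ Γ ⊓ beq (p (q t)) (τ n)) ⊓ (b t' ⊓ Γ ⊓ beq (p (q t')) (τ n)) = Z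
    have z1 : Z ≤ Γ := by rw [← hZ]; exact inf_le_left.trans (inf_le_left.trans inf_le_right)
    have z2 : Z ≤ b t := by rw [← hZ]; exact inf_le_left.trans (inf_le_left.trans inf_le_left)
    have z3 : Z ≤ b t' := by rw [← hZ]; exact inf_le_right.trans (inf_le_left.trans inf_le_left)
    have z4 : Z ≤ beq (p (q t)) (τ n) := by rw [← hZ]; exact inf_le_left.trans inf_le_right
    have z5 : Z ≤ beq (p (q t')) (τ n) := by rw [← hZ]; exact inf_le_right.trans inf_le_right
    have z6 : Z ≤ beq (p (q t)) (p (q t')) := (ext_eq_right (p (q t))).of_le' (x := τ n) z5 z4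
    have z7 : Z ≤ comp (VB B) P r (p (q t)) (p (q t')) := by
      refine le_iSup_of_le (p (q t)) (le_inf (le_inf ?_ ?_) ?_)
      · exact z1.trans (hpP (q t))
      · exact z1.trans (hrefl (q t))
      · exact (ext_rel_trd r (p (q t))).of_le (x := p (q t)) z6 (z1.trans (hrefl (q t)))
    exact (le_inf (le_inf z2 z3) (le_inf z1 z7)).trans (hin t t' hne).le
  have hcov : ∀ t, b t ⊓ Γ ≤ ⨆ n, b t ⊓ Γ ⊓ beq (p (q t)) (τ n) := by
    intro t
    rw [← inf_iSup_eq]
    refine le_inf le_rfl ?_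
    have h1 : b t ⊓ Γ ≤ bmem (p (q t)) A := by
      rw [hmemA]
      refine le_iSup_of_le t ?_
      rw [beq_refl, inf_top_eq]
    exact (le_inf inf_le_right h1).trans (hτ (p (q t)))
  have hcount : (Set.univ : Set T).Countable := by
    have h1 : (Set.univ : Set T) ⊆ {t | b t ⊓ Γᶜ ≠ ⊥} ∪
        ⋃ n : ULift.{u} ℕ, {t | b t ⊓ Γ ⊓ beq (p (q t)) (τ n) ≠ ⊥} := by
      intro t _
      by_contra hno
      simp only [Set.mem_union, Set.mem_ofPred_eq, Set.mem_iUnion, not_or, not_exists,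
        not_not] at hno
      apply hb t
      have h2 : b t = (b t ⊓ Γ) ⊔ (b t ⊓ Γᶜ) := by
        rw [← inf_sup_left, sup_compl_eq_top, inf_top_eq]
      rw [h2, hno.1, sup_bot_eq]
      refine le_bot_iff.1 ((hcov t).trans (iSup_le fun n => (hno.2 n).le))
    refine Set.Countable.mono h1 ?_
    refine (countable_of_disjoint hB _ hoff).union (Set.countable_iUnion fun n => ?_)
    exact countable_of_disjoint hB _ (hcn n)
  rw [← mk_univ]
  exact le_aleph0_iff_set_countable.2 hcount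

end Pool.Agent.Lib.MP_c5d73d_lc.F.H75
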